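import Pool.Agent.Helper7.BM.Goals

/-!
# Project BM (MP_57df85_nt), packet DEP: multiplicative dependence
-/

set_option autoImplicit false

namespace Pool.Agent.Helper39.BM

open Pool.Agent.Helper7.BM

theorem vmul (r : ℕ) [Fact r.Prime] (p q a b : ℕ) (hp : p ≠ 0) (hq : q ≠ 0) (ha : a ≠ 0)
    (hb : b ≠ 0) (x y z : ℤ)
    (h : (p : ℚ) ^ x * (q : ℚ) ^ y * ((a : ℚ) / (b : ℚ)) ^ z = 1) :
    x * padicValNat r p + y * padicValNat r q + z * (padicValNat r a - padicValNat r b) = 0 := by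
  have hp' : (p : ℚ) ≠ 0 := by exact_mod_cast hp
  have hq' : (q : ℚ) ≠ 0 := by exact_mod_cast hq
  have ha' : (a : ℚ) ≠ 0 := by exact_mod_cast ha
  have hb' : (b : ℚ) ≠ 0 := by exact_mod_cast hb
  have h1 := congrArg (padicValRat r) h
  rw [padicValRat.mul (mul_ne_zero (zpow_ne_zero _ hp') (zpow_ne_zero _ hq'))
    (zpow_ne_zero _ (div_ne_zero ha' hb')), padicValRat.mul (zpow_ne_zero _ hp')
    (zpow_ne_zero _ hq'), padicValRat.zpow, padicValRat.zpow, padicValRat.zpow,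
    padicValRat.div ha' hb', padicValRat.of_nat, padicValRat.of_nat, padicValRat.of_nat,
    padicValRat.of_nat, padicValRat.one] at h1
  exact h1

/-- packet DEP -/
theorem dep : StmtDEP := by
  intro p q hp hq hpq x y z hne h
  have : Fact p.Prime := ⟨hp⟩
  have : Fact q.Prime := ⟨hq⟩
  have hp2 := hp.two_le
  have hq2 := hq.two_le
  obtain ⟨a, ha⟩ : ∃ a, a = q - 1 := ⟨_, rfl⟩
  obtain ⟨b, hb⟩ : ∃ b, b = p - 1 := ⟨_, rfl⟩
  have ha0 : a ≠ 0 := by omega
  have hb0 : b ≠ 0 := by omega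
  have hqa : (q : ℝ) - 1 = (a : ℝ) := by
    rw [ha, Nat.cast_sub (by omega)]
    simp
  have hpb : (p : ℝ) - 1 = (b : ℝ) := by
    rw [hb, Nat.cast_sub (by omega)]
    simp
  rw [hqa, hpb] at h
  have hQ : (p : ℚ) ^ x * (q : ℚ) ^ y * ((a : ℚ) / (b : ℚ)) ^ z = 1 := by
    have h' : (((p : ℚ) ^ x * (q : ℚ) ^ y * ((a : ℚ) / (b : ℚ)) ^ z : ℚ) : ℝ) = ((1 : ℚ) : ℝ) := by
      push_cast
      exact h
    exact Rat.cast_injective h'
  -- valuation at q
  have v1 := vmul q p q a b hp.ne_zero hq.ne_zero ha0 hb0 x y z hQ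
  have w1 : padicValNat q p = 0 := padicValNat.eq_zero_of_not_dvd fun hd =>
    absurd (Nat.le_of_dvd hp.pos hd) (by omega)
  have w2 : padicValNat q a = 0 := padicValNat.eq_zero_of_not_dvd fun hd =>
    absurd (Nat.le_of_dvd (Nat.pos_of_ne_zero ha0) hd) (by omega)
  have w3 : padicValNat q b = 0 := padicValNat.eq_zero_of_not_dvd fun hd =>
    absurd (Nat.le_of_dvd (Nat.pos_of_ne_zero hb0) hd) (by omega)
  rw [w1, w2, w3, padicValNat_self] at v1
  have hy : y = 0 := by simpa using v1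
  -- valuation at p
  have v2 := vmul p p q a b hp.ne_zero hq.ne_zero ha0 hb0 x y z hQ
  have w4 : padicValNat p b = 0 := padicValNat.eq_zero_of_not_dvd fun hd =>
    absurd (Nat.le_of_dvd (Nat.pos_of_ne_zero hb0) hd) (by omega)
  rw [hy, w4, padicValNat_self] at v2
  obtain ⟨c, hc⟩ : ∃ c, c = padicValNat p a := ⟨_, rfl⟩
  rw [← hc] at v2
  have hx : x = -(z * c) := by
    push_cast at v2
    linarith
  have hz : z ≠ 0 := by
    intro hz
    apply hne
    rw [hx, hz]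
    simp [hy]
  have hp0 : (p : ℚ) ≠ 0 := by exact_mod_cast hp.ne_zero
  have hb0' : (b : ℚ) ≠ 0 := by exact_mod_cast hb0
  have h2 : ((a : ℚ) / (b * (p : ℚ) ^ c)) ^ z = 1 := by
    rw [hy, hx, zpow_zero, mul_one] at hQ
    rw [← div_div, div_zpow, ← hQ, zpow_neg, ← zpow_natCast, ← zpow_mul, div_eq_mul_inv, mul_comm,
      mul_comm (c : ℤ) z]
  have h3 : (a : ℚ) / (b * (p : ℚ) ^ c) = 1 := by
    by_contra h3
    exact hz ((zpow_eq_one_iff_right₀ (by positivity) h3).1 h2)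
  have h4 : (a : ℚ) = b * (p : ℚ) ^ c := by
    rw [div_eq_one_iff_eq (mul_ne_zero hb0' (pow_ne_zero _ hp0))] at h3
    exact h3
  have h5 : a = b * p ^ c := by exact_mod_cast h4
  refine ⟨c, ?_, ?_⟩
  · by_contra h6
    have h7 : c = 0 := by omega
    rw [h7, pow_zero, mul_one] at h5
    omega
  · rw [← ha, ← hb]
    exact h5

end Pool.Agent.Helper39.BM
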